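import Pool.Agent.Lib.MP_f03f34_nt.Count

namespace Pool.Agent.Results.MP_f03f34_nt.FourthPowers

open Finset Pool.Agent.Lib.MP_f03f34_nt

lemma card_le {n B : ℕ} (hn : 0 < n) (hB : n ≤ B ^ 4) :
    Nat.card {x : Fin 4 → ℕ // ∑ i, x i ^ 4 = n} ≤ 4 * (Z n B).card := by
  have ex : ∀ x : {x : Fin 4 → ℕ // ∑ i, x i ^ 4 = n}, ∃ i, 0 < x.1 i := fun x => by
    by_contra h
    push Not at h
    have := x.2
    rw [sum_eq_zero fun i _ => by rw [Nat.le_zero.1 (h i)]; rfl] at this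
    omega
  choose ι hι using ex
  have bd : ∀ (x : {x : Fin 4 → ℕ // ∑ i, x i ^ 4 = n}) (i : Fin 4), (x.1 i : ℤ) ≤ B := fun x i => by
    have := single_le_sum (f := fun i => x.1 i ^ 4) (fun _ _ => Nat.zero_le _) (mem_univ i)
    exact_mod_cast (Nat.pow_le_pow_iff_left (by norm_num)).1 ((this.trans_eq x.2).trans hB)
  have := Nat.card_le_card_of_injective (β := Fin 4 × Z n B)
    (fun x => (ι x, ⟨(fun j => x.1 ((ι x).succAbove j), x.1 (ι x)), mem_Z.2 ⟨by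
      have := x.2
      rw [Fin.sum_univ_succAbove _ (ι x), Fin.sum_univ_three, add_comm] at this
      dsimp only
      exact_mod_cast this, Int.natCast_pos.2 (hι x), bd x _,
      fun j => ⟨Int.natCast_nonneg _, bd x _⟩⟩⟩)) fun x x' e => by
      obtain ⟨e1, e2⟩ := Prod.ext_iff.1 e
      obtain ⟨e2, e3⟩ := Prod.ext_iff.1 (Subtype.ext_iff.1 e2)
      simp only [← show ι x = ι x' from e1] at e2 e3
      refine Subtype.ext (funext fun i => ?_)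
      rcases Fin.eq_self_or_eq_succAbove (ι x) i with rfl | ⟨j, rfl⟩
      · exact_mod_cast e3
      · exact_mod_cast congrFun e2 j
  simpa using this

lemma exists_par {θ : ℝ} (hθ : 3 / 4 ^ (4 / 3 : ℝ) < θ) :
    ∃ r L : ℕ, 0 < r ∧ r ^ 3 < 4 * L ^ 3 ∧ (3 * (L + 2) : ℝ) / (4 * r) < θ := by
  obtain ⟨μ, hμ⟩ : ∃ μ : ℝ, μ = 4 / 4 ^ (4 / 3 : ℝ) := ⟨_, rfl⟩
  have μ0 : 0 < μ := by rw [hμ]; positivity
  have μ3 : 4 * μ ^ 3 = 1 := by
    rw [hμ, div_pow, ← Real.rpow_natCast (4 ^ (4 / 3 : ℝ)), ← Real.rpow_mul (by norm_num)]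
    norm_num
  have h1 : 0 < 4 * θ - 3 * μ := by
    rw [hμ, show (3 : ℝ) * (4 / 4 ^ (4 / 3 : ℝ)) = 4 * (3 / 4 ^ (4 / 3 : ℝ)) by ring]
    linarith
  obtain ⟨r, hr⟩ := exists_nat_gt (9 / (4 * θ - 3 * μ))
  have r0 : (0 : ℝ) < r := lt_trans (by positivity) hr
  rw [div_lt_iff₀ h1] at hr
  have h2 := Nat.lt_floor_add_one (μ * r)
  have h3 := Nat.floor_le (show 0 ≤ μ * r by positivity)
  refine ⟨r, ⌊μ * r⌋₊ + 1, by exact_mod_cast r0, ?_, ?_⟩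
  · have := pow_lt_pow_left₀ h2 (by positivity) (by norm_num : 3 ≠ 0)
    have e : (r : ℝ) ^ 3 = 4 * (μ * r) ^ 3 := by rw [mul_pow, ← mul_assoc, μ3, one_mul]
    exact_mod_cast (show (r : ℝ) ^ 3 < 4 * ((⌊μ * r⌋₊ : ℝ) + 1) ^ 3 by linarith)
  · rw [div_lt_iff₀ (by positivity)]
    push_cast
    nlinarith

/-- A power saving over the trivial exponent one half for sums of four fourth powers. -/
theorem result (θ : ℝ) (hθ : 3 / 4 ^ (4 / 3 : ℝ) < θ) : ∃ N : ℕ, ∀ n : ℕ, N ≤ n →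
    ((Nat.card {x : Fin 4 → ℕ // ∑ i, x i ^ 4 = n} : ℕ) : ℝ) < (n : ℝ) ^ θ := by
  obtain ⟨r, L, hr, h, hL⟩ := exists_par hθ
  obtain ⟨C, c, hC⟩ := count h hr
  obtain ⟨η, hη⟩ : ∃ η : ℝ, η = (3 * (L + 2) : ℝ) / (4 * r) := ⟨_, rfl⟩
  obtain ⟨K, hK⟩ : ∃ K : ℕ, K = 4 * (C * (2 * (c + 1)) ^ (3 * (L + 2))) := ⟨_, rfl⟩
  obtain ⟨N, hN⟩ := Filter.eventually_atTop.1 (((tendsto_rpow_atTop
    (sub_pos.2 (hη ▸ hL))).comp tendsto_natCast_atTop_atTop).eventually_gt_atTop (K : ℝ))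
  refine ⟨N + 1, fun n hn => ?_⟩
  have n0 : 0 < n := by omega
  have n1 : (0 : ℝ) < n := by exact_mod_cast n0
  have r4 : 4 * r ≠ 0 := by omega
  obtain ⟨z, hz⟩ : ∃ z, z = Nat.nthRoot (4 * r) n := ⟨_, rfl⟩
  have z1 : 1 ≤ z := hz ▸ (Nat.le_nthRoot_iff r4).2 (by rw [one_pow]; exact n0)
  have z2 : z ^ (4 * r) ≤ n := hz ▸ Nat.pow_nthRoot_le (.inl r4)
  have z3 : n < (z + 1) ^ (4 * r) := hz ▸ Nat.lt_pow_nthRoot_add_one r4 n
  have h1 := card_le (B := ((c + 1) * (z + 1)) ^ r) n0 (by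
    rw [← pow_mul, mul_comm r]
    exact z3.le.trans (Nat.pow_le_pow_left (Nat.le_mul_of_pos_left _ c.succ_pos) _))
  have h2 := hC n ((c + 1) * (z + 1)) n0 (by nlinarith)
  have h3 : ((c + 1) * (z + 1)) ^ (3 * (L + 2)) ≤ (2 * (c + 1) * z) ^ (3 * (L + 2)) :=
    Nat.pow_le_pow_left (by nlinarith) _
  have h4 : Nat.card {x : Fin 4 → ℕ // ∑ i, x i ^ 4 = n} ≤ K * z ^ (3 * (L + 2)) := by
    rw [hK, mul_assoc, mul_assoc, ← mul_pow]
    exact h1.trans (Nat.mul_le_mul_left _ (h2.trans (Nat.mul_le_mul_left _ h3)))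
  have h5 : (z : ℝ) ^ (3 * (L + 2)) ≤ (n : ℝ) ^ η := by
    have r0 : (r : ℝ) ≠ 0 := by exact_mod_cast hr.ne'
    have := Real.rpow_le_rpow (by positivity) (show ((z : ℝ) ^ (4 * r)) ≤ n by exact_mod_cast z2)
      (show 0 ≤ η by rw [hη]; positivity)
    rwa [← Real.rpow_natCast, ← Real.rpow_mul (by positivity),
      show ((4 * r : ℕ) : ℝ) * η = (3 * (L + 2) : ℕ) by rw [hη]; push_cast; field_simp,
      Real.rpow_natCast] at this
  calc _ ≤ (K : ℝ) * (z : ℝ) ^ (3 * (L + 2)) := by exact_mod_cast h4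
    _ ≤ K * (n : ℝ) ^ η := by gcongr
    _ < (n : ℝ) ^ (θ - η) * (n : ℝ) ^ η :=
      mul_lt_mul_of_pos_right (hN n (by omega)) (Real.rpow_pos_of_pos n1 _)
    _ = _ := by rw [← Real.rpow_add n1, sub_add_cancel]

end Pool.Agent.Results.MP_f03f34_nt.FourthPowers
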