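import Pool.Agent.Lib.MP_f03f34_nt.WtD

/-! Hypothesis K fails for diagonal forms with positive coefficients in degrees 5, 7, 9, 11. -/

namespace Pool.Agent.Results.MP_f03f34_nt.WeightedForms

open Pool.Agent.Lib.MP_f03f34_nt

theorem result (j : ℕ) (hj : j + 2 = 5 ∨ j + 2 = 7 ∨ j + 2 = 9 ∨ j + 2 = 11) :
    ∃ c : Fin (j + 2) → ℕ, (∀ i, 0 < c i) ∧ c 0 = 1 ∧ c 1 = 1 ∧
      ∀ h : ℝ, h < 1 / ((j + 2) * (j + 3)) → ∀ N : ℕ, ∃ n : ℕ, N ≤ n ∧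
        (n : ℝ) ^ h < ((Nat.card {x : Fin (j + 2) → ℕ // (∀ i, 0 < x i) ∧
          ∑ i, c i * x i ^ (j + 2) = n} : ℕ) : ℝ) := by
  have key : ∃ c : Fin (j + 2) → ℕ, (∀ i, 0 < c i) ∧ c 0 = 1 ∧ c 1 = 1 ∧ ∃ G q : ℕ, 0 < G ∧
      0 < q ∧ ∀ m, 0 < m → m ≤ Nat.card {x : Fin (j + 2) → ℕ // (∀ i, 0 < x i) ∧
        ∑ i, c i * x i ^ (j + 2) = (G * (q * m) ^ (j + 2 + 1)) ^ (j + 2)} := by
    rcases hj with h | h | h | h
    · obtain rfl : j = 3 := by omega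
      exact Wt.form5
    · obtain rfl : j = 5 := by omega
      exact Wt.form7
    · obtain rfl : j = 7 := by omega
      exact Wt.form9
    · obtain rfl : j = 9 := by omega
      exact Wt.form11
  obtain ⟨c, h1, h2, h3, G, q, h4, h5, h6⟩ := key
  refine ⟨c, h1, h2, h3, fun h hh N => Wt.often (k := j + 2) j.succ.succ_pos
    (fun n => Nat.card {x : Fin (j + 2) → ℕ // (∀ i, 0 < x i) ∧ ∑ i, c i * x i ^ (j + 2) = n})
    G q h4 h5 h6 h ?_ N⟩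
  push_cast
  rwa [add_assoc, show (2 : ℝ) + 1 = 3 by norm_num]

end Pool.Agent.Results.MP_f03f34_nt.WeightedForms
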